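import Pool.Agent.H68.STAT.Fam2
import Pool.Agent.H39.GEN.LabU

/-!
# New labels of a cell are chains of two-sided labels

The cell `C.nd2` of a family (`Pool.STAT.CDat2`) whose coordinates are the time and the coordinates
`c 0, c 1, …` of the family. A new label (`NewLab2`) of the coordinate `c l`, of precision
`g i j (l + 1) + A' z`, is a chain of two-sided labels (`Pool.GEN.ChN`) over the labels of the cell of
the coordinates before it, with some bound for the gradients (`chn_of_new`). So in a class in which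
the thresholds of the chains are numbers there is no new label above the threshold (`lab_back`).
-/

set_option autoImplicit false

namespace Pool.LBK

open Finset Real MvPolynomial
open Pool.Agent.H49.Ent Pool.Agent.H32.Dense Pool.STK Pool.KA Pool.KSAT Pool.K2S Pool.PB Pool.S6C
open Pool.GEN (bt bd PtT LnT DepC NBx ChOK ChN Chn)
open Pool.STAT (PN NDat2 CDat2)
open Pool.BFL (Pb)

variable {m J n : ℕ}

/-! ### Renaming the coordinates -/

/-- The variables: `0` is the time, `l + 1` is the coordinate `c l`. -/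
def vc (c : ℕ → Fin m) : ℕ → Option (Fin m)
  | 0 => none
  | l + 1 => some (c l)

/-- The polynomial in the variables of the family. -/
noncomputable def tr (c : ℕ → Fin m) (P : PN) : MvPolynomial (Option (Fin m)) ℝ :=
  rename (vc c) P

theorem eval_tr (c : ℕ → Fin m) (P : PN) (b : Option (Fin m) → ℝ) :
    eval b (tr c P) = eval (b ∘ vc c) P := eval_rename _ _ _

theorem deg_tr (c : ℕ → Fin m) (P : PN) : (tr c P).totalDegree ≤ P.totalDegree :=
  totalDegree_rename_le _ _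

/-- Values only depend on the variables which occur. -/
theorem eval_vars {P : PN} {i : ℕ} (h : P.vars ⊆ range (i + 1)) {b b' : ℕ → ℝ}
    (h' : ∀ l ≤ i, b l = b' l) : eval b P = eval b' P :=
  eval₂Hom_congr' rfl (fun l hl _ => h' l (Nat.lt_succ_iff.1 (mem_range.1 (h hl)))) rfl

theorem dep_tr {c : ℕ → Fin m} {P : PN} {i : ℕ} (h : P.vars ⊆ range (i + 1)) :
    DepC c i (tr c P) := by
  intro b b' h0 h1
  rw [eval_tr, eval_tr]
  refine eval_vars h fun l hl => ?_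
  cases l with
  | zero => exact h0
  | succ k => exact h1 k (by omega)

/-! ### Some bound for the gradients -/

/-- A polynomial is bounded on a ball. -/
theorem bnd_ball {σ : Type} [Finite σ] (P : MvPolynomial σ ℝ) (R : ℝ) :
    ∃ B : ℝ, 0 ≤ B ∧ ∀ b : σ → ℝ, (∀ o, |b o| ≤ R) → |eval b P| ≤ B := by
  have hc : IsCompact (Set.pi Set.univ fun _ : σ => Set.Icc (-R) R) :=
    isCompact_univ_pi fun _ => isCompact_Icc
  obtain ⟨B, hB⟩ := hc.exists_bound_of_continuousOn (f := fun b : σ → ℝ => eval b P)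
    (MvPolynomial.continuous_eval P).continuousOn
  refine ⟨max B 0, le_max_right _ _, fun b hb => ?_⟩
  have h1 := hB b (Set.mem_univ_pi.2 fun o => abs_le.1 (hb o))
  rw [Real.norm_eq_abs] at h1
  exact h1.trans (le_max_left _ _)

open Classical in
/-- The coordinates of a chain, the others are zero. -/
noncomputable def crd (c : ℕ → Fin m) (i : ℕ) (b : Option (Fin m) → ℝ) (o : Option (Fin m)) : ℝ :=
  if o = none ∨ ∃ l < i, o = some (c l) then b o else 0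

theorem crd_eval {c : ℕ → Fin m} {i : ℕ} {P : MvPolynomial (Option (Fin m)) ℝ}
    (h : DepC c i P) (b : Option (Fin m) → ℝ) : eval b P = eval (crd c i b) P := by
  refine h _ _ ?_ fun l hl => ?_
  · unfold crd
    rw [if_pos (Or.inl rfl)]
  · unfold crd
    rw [if_pos (Or.inr ⟨l, hl, rfl⟩)]

theorem crd_le {c : ℕ → Fin m} {i : ℕ} {b : Option (Fin m) → ℝ} {R : ℝ} (hR : 0 ≤ R)
    (h0 : |b none| ≤ R) (h1 : ∀ l < i, |b (some (c l))| ≤ R) (o : Option (Fin m)) :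
    |crd c i b o| ≤ R := by
  unfold crd
  split_ifs with h
  · rcases h with rfl | ⟨l, hl, rfl⟩
    · exact h0
    · exact h1 l hl
  · rw [abs_zero]
    exact hR

/-- Natural boxes are bounded in the coordinates of the chain. -/
theorem box_bnd {c : ℕ → Fin m} {G : ℕ → MvPolynomial (Option (Fin m)) ℝ}
    (hG : ∀ i, DepC c i (G i)) (g : ℕ → ℕ) (a : ℕ) (t : ℝ) (i : ℕ) :
    ∃ R : ℝ, 0 ≤ R ∧ ∀ b, NBx c G g a t i b → |b none| ≤ R ∧ ∀ l < i, |b (some (c l))| ≤ R := by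
  have hinv : ∀ k : ℕ, (1 : ℝ) / 2 ^ k ≤ 1 := fun k => by
    rw [div_le_one (by positivity)]
    exact one_le_pow₀ (by norm_num)
  induction i with
  | zero =>
    refine ⟨|t| + 1, by positivity, fun b hb => ⟨?_, fun l hl => absurd hl (Nat.not_lt_zero l)⟩⟩
    have h1 := hb.1.trans (hinv a)
    have h2 : |b none| ≤ |b none - t| + |t| := by
      have := abs_add_le (b none - t) t
      rwa [sub_add_cancel] at this
    linarith
  | succ i ih =>
    obtain ⟨R, hR, h⟩ := ih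
    obtain ⟨B, hB, hb⟩ := bnd_ball (G i) R
    refine ⟨max R (B + 1), le_max_of_le_left hR, fun b hbx => ?_⟩
    have h1 : NBx c G g a t i b := hbx.mono le_rfl (Nat.le_succ i)
    obtain ⟨h2, h3⟩ := h b h1
    refine ⟨h2.trans (le_max_left _ _), fun l hl => ?_⟩
    rcases Nat.lt_succ_iff_lt_or_eq.1 hl with hl | rfl
    · exact (h3 l hl).trans (le_max_left _ _)
    · have h4 := (hbx.2 l hl).trans (hinv (g l))
      have h5 : |eval b (G l)| ≤ B := by
        rw [crd_eval (hG l) b]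
        exact hb _ (crd_le hR h2 h3)
      have h6 : |b (some (c l))| ≤ |b (some (c l)) - eval b (G l)| + |eval b (G l)| := by
        have := abs_add_le (b (some (c l)) - eval b (G l)) (eval b (G l))
        rwa [sub_add_cancel] at this
      exact le_max_of_le_right (by linarith)

/-- **Some bound for the gradients.** -/
theorem lip_ex (F : Fam m J) {c : ℕ → Fin m} (r : ℕ) (a : ℕ) (g : ℕ → ℕ)
    {G : PtT F → ℕ → MvPolynomial (Option (Fin m)) ℝ} (hG : ∀ y i, DepC c i (G y i)) :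
    ∃ e : ℕ, ∀ ω, ∀ i < r, ∀ b : Option (Fin m) → ℝ, NBx c (G (ptr F J ω)) g a (F.t ω) i b →
      ∀ l < i, |eval b (pderiv (some (c l)) (G (ptr F J ω) i))| ≤
        2 ^ (e + Pool.GEN.nlp g l i) := by
  have h1 : ∀ (ω : F.Ω) (i l : ℕ), ∃ B : ℝ, 0 ≤ B ∧ ∀ b : Option (Fin m) → ℝ,
      NBx c (G (ptr F J ω)) g a (F.t ω) i b →
      |eval b (pderiv (some (c l)) (G (ptr F J ω) i))| ≤ B := by
    intro ω i l
    obtain ⟨R, hR, h⟩ := box_bnd (hG (ptr F J ω)) g a (F.t ω) i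
    obtain ⟨B, hB, hb⟩ := bnd_ball (pderiv (some (c l)) (G (ptr F J ω) i)) R
    refine ⟨B, hB, fun b hbx => ?_⟩
    obtain ⟨h2, h3⟩ := h b hbx
    rw [crd_eval ((hG (ptr F J ω) i).pderiv l) b]
    exact hb _ (crd_le hR h2 h3)
  choose B hB hb using h1
  obtain ⟨e, he⟩ := pow_unbounded_of_one_lt (∑ ω, ∑ i ∈ range r, ∑ l ∈ range r, B ω i l)
    (one_lt_two (α := ℝ))
  refine ⟨e, fun ω i hi b hbx l hl => (hb ω i l b hbx).trans ?_⟩
  have h2 : B ω i l ≤ ∑ ω, ∑ i ∈ range r, ∑ l ∈ range r, B ω i l := by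
    calc B ω i l ≤ ∑ l ∈ range r, B ω i l :=
          Finset.single_le_sum (f := fun l => B ω i l) (fun l _ => hB ω i l)
            (mem_range.2 (hl.trans hi))
      _ ≤ ∑ i ∈ range r, ∑ l ∈ range r, B ω i l :=
          Finset.single_le_sum (f := fun i => ∑ l ∈ range r, B ω i l)
            (fun i _ => Finset.sum_nonneg fun l _ => hB ω i l) (mem_range.2 hi)
      _ ≤ _ := Finset.single_le_sum (f := fun ω => ∑ i ∈ range r, ∑ l ∈ range r, B ω i l)
            (fun ω _ => Finset.sum_nonneg fun i _ => Finset.sum_nonneg fun l _ => hB ω i l)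
            (mem_univ ω)
  exact (h2.trans he.le).trans (pow_le_pow_right₀ (by norm_num) (Nat.le_add_right _ _))

/-! ### The chain of a new label -/

section
variable {F : Fam m J} {C : CDat2 F n} {X : F.Ω → ℕ → ℝ}
  {pa : Pool.STAT.Ln2 F → ℕ → Polynomial ℝ} {K a₀ w₀ z M : ℕ} {g : ℕ → ℕ → ℕ → ℕ} {A : F.Ω → Prop}

/-- The visible polynomials: the labels of the cell before `l`, the new label at `l`. -/
noncomputable def Gv (C : CDat2 F n) (c : ℕ → Fin m) (i j l : ℕ) (Gn : Pool.STAT.Pt2 F → PN)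
    (y : PtT F) (k : ℕ) : MvPolynomial (Option (Fin m)) ℝ :=
  if k < l then tr c (C.G i j (C.s i j y) (k + 1)) else if k = l then tr c (Gn y) else 0

/-- The polynomials of the lines. -/
noncomputable def Hv (C : CDat2 F n) (c : ℕ → Fin m) (w₀ w i j l : ℕ)
    (Hn : Pool.STAT.Ln2 F × ℕ → PN) (s : LnT F) (k : ℕ) : MvPolynomial (Option (Fin m)) ℝ :=
  if k < l then tr c (C.P i j (C.li i j s) (k + 1)) else
    if k = l then tr c (Hn ((s.1, s.2.1, s.2.2 / 2 ^ (w - w₀)), s.2.2)) else 0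

/-- The precisions. -/
def gv (g : ℕ → ℕ → ℕ → ℕ) (i j l P : ℕ) (k : ℕ) : ℕ := if k = l then P else g i j (k + 1)

/-- **A new label of the cell is the end of a chain of two-sided labels.** -/
theorem chn_of_new (hC : C.Cnd2 X pa K a₀ w₀ z M g A) (c : ℕ → Fin m)
    (hX : ∀ ω, A ω → ∀ k < n, X ω (k + 1) = F.x ω (c k)) {i j l P K' : ℕ} (hi : i ≤ M)
    (hj : j ≤ M) (hwJ : w₀ + j * z ≤ J) (hl : l < n) {Gn : Pool.STAT.Pt2 F → PN}
    {Hn : Pool.STAT.Ln2 F × ℕ → PN}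
    (hGn : ∀ x, (Gn x).totalDegree ≤ K' ∧ (Gn x).vars ⊆ range (l + 1))
    (hHn : ∀ x, (Hn x).totalDegree ≤ K' ∧ (Hn x).vars ⊆ range (l + 1)) {B : F.Ω → Prop}
    (hBA : ∀ ω, B ω → A ω)
    (hpos : ∀ ω, B ω → |X ω (l + 1) - eval (X ω) (Gn (ptr F J ω))| ≤ 1 / 2 ^ P)
    (hagr : ∀ ω, B ω → ∀ b : ℕ → ℝ, C.Nb2 X g i j (a₀ + i * z) (l + 1) ω b →
      |eval b (Gn (ptr F J ω)) - eval b (Hn (slam F w₀ ω, F.T1 (w₀ + j * z) ω))| ≤ 1 / 2 ^ P) :
    ∃ e : ℕ, ChN F c (l + 1) (fun _ => max K K') (a₀ + i * z) (w₀ + j * z) e (gv g i j l P) B := by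
  have hdG : ∀ y k, DepC c k (Gv C c i j l Gn y k) := by
    intro y k
    unfold Gv
    split_ifs with h1 h2
    · exact dep_tr (hC.Gtri i hi j hj _ _ (by omega) (by omega))
    · rw [h2]
      exact dep_tr (hGn y).2
    · intro b b' _ _
      rw [map_zero, map_zero]
  obtain ⟨e, he⟩ := lip_ex F (l + 1) (a₀ + i * z) (gv g i j l P) hdG
  -- the values at the point
  have hbt : ∀ ω, A ω → ∀ (Q : PN) (k : ℕ), k ≤ n → Q.vars ⊆ range (k + 1) →
      eval (bt F ω) (tr c Q) = eval (X ω) Q := by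
    intro ω hω Q k hk hQ
    rw [eval_tr]
    refine eval_vars hQ fun k' hk' => ?_
    cases k' with
    | zero => exact (hC.X_zero ω).symm
    | succ k' => exact (hX ω hω k' (by omega)).symm
  -- the boxes
  have hbx : ∀ ω, ∀ k ≤ l, ∀ b : Option (Fin m) → ℝ,
      NBx c (Gv C c i j l Gn (ptr F J ω)) (gv g i j l P) (a₀ + i * z) (F.t ω) k b →
      C.Nb2 X g i j (a₀ + i * z) (k + 1) ω (b ∘ vc c) := by
    intro ω k hk b hb
    refine ⟨?_, fun k' h1 h2 => ?_⟩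
    · rw [hC.X_zero ω]
      exact hb.1
    · obtain ⟨k'', rfl⟩ : ∃ k'', k' = k'' + 1 := ⟨k' - 1, by omega⟩
      have h3 := hb.2 k'' (by omega)
      unfold Gv gv at h3
      rw [if_pos (by omega), if_neg (by omega), eval_tr] at h3
      exact h3
  refine ⟨e, Gv C c i j l Gn, Hv C c w₀ (w₀ + j * z) i j l Hn, ?_, ?_, hdG, ?_, ?_, ?_, ?_⟩
  · intro y k
    unfold Gv
    split_ifs with h1 h2
    · exact (deg_tr c _).trans ((hC.Gdeg i hi j hj _ _ (by omega) (by omega)).trans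
        (le_max_left _ _))
    · exact (deg_tr c _).trans ((hGn y).1.trans (le_max_right _ _))
    · rw [totalDegree_zero]
      exact Nat.zero_le _
  · intro s k
    unfold Hv
    split_ifs with h1 h2
    · exact (deg_tr c _).trans ((hC.Pdeg i hi j hj _ _ (by omega) (by omega)).trans
        (le_max_left _ _))
    · exact (deg_tr c _).trans ((hHn _).1.trans (le_max_right _ _))
    · rw [totalDegree_zero]
      exact Nat.zero_le _
  · intro s k
    unfold Hv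
    split_ifs with h1 h2
    · exact dep_tr (hC.Ptri i hi j hj _ _ (by omega) (by omega))
    · rw [h2]
      exact dep_tr (hHn _).2
    · intro b b' _ _
      rw [map_zero, map_zero]
  · intro ω hω k hk
    have hA := hBA ω hω
    rcases Nat.lt_succ_iff_lt_or_eq.1 hk with hk | rfl
    · unfold Gv gv
      rw [if_pos hk, if_neg hk.ne, hbt ω hA _ k (by omega)
        (hC.Gtri i hi j hj _ _ (by omega) (by omega)), ← hX ω hA k (by omega)]
      exact hC.pos i hi j hj ω hA (k + 1) (by omega) (by omega)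
    · unfold Gv gv
      rw [if_neg (lt_irrefl k), if_pos rfl, if_pos rfl, hbt ω hA _ k (by omega) (hGn _).2,
        ← hX ω hA k (by omega)]
      exact hpos ω hω
  · intro ω hω k hk b hb
    have hA := hBA ω hω
    have hb' := hbx ω k (by omega) b hb
    rcases Nat.lt_succ_iff_lt_or_eq.1 hk with hk | rfl
    · unfold Gv Hv gv
      rw [if_pos hk, if_pos hk, if_neg hk.ne, eval_tr, eval_tr]
      have h1 := hC.agr i hi j hj ω hA (k + 1) (by omega) (by omega) (b ∘ vc c) hb'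
      unfold CDat2.Ps2 CDat2.Ph2 at h1
      rw [if_neg (by omega)] at h1
      exact h1
    · unfold Gv Hv gv
      rw [if_neg (lt_irrefl k), if_pos rfl, if_neg (lt_irrefl k), if_pos rfl, if_pos rfl, eval_tr,
        eval_tr]
      have h1 := hagr ω hω (b ∘ vc c) hb'
      have h2 := slam_coarse F (Nat.le_add_right w₀ (j * z)) hwJ ω
      rw [h2] at h1
      exact h1
  · intro ω hω k hk b hb k' hk'
    exact he ω k hk b hb k' hk'

/-- **`NewLab2` in the cell of a family**, for a law with support in `A`. -/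
theorem new_chn (hC : C.Cnd2 X pa K a₀ w₀ z M g A) (c : ℕ → Fin m)
    (hX : ∀ ω, A ω → ∀ k < n, X ω (k + 1) = F.x ω (c k)) {i j l A' K' : ℕ} (hi : i ≤ M)
    (hj : j ≤ M) (hwJ : w₀ + j * z ≤ J) (hl : l < n) {η' : ℝ} {q : F.Ω → ℝ}
    (hq0 : ∀ ω, 0 ≤ q ω) (hq : ∀ ω, 0 < q ω → A ω)
    (hN : (C.nd2 X pa w₀ z M g).NewLab2 J a₀ w₀ z i j (l + 1) A' K' η' q) :
    ∃ B : F.Ω → Prop, (∀ ω, B ω → A ω) ∧ η' ≤ Pb q B ∧ ∃ e : ℕ,
      ChN F c (l + 1) (fun _ => max K K') (a₀ + i * z) (w₀ + j * z) e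
        (gv g i j l (g i j (l + 1) + A' * z)) B := by
  classical
  obtain ⟨Gn, Hn, hGn, hHn, hP⟩ := hN
  have e1 : (C.nd2 X pa w₀ z M g).g i j (l + 1) = g i j (l + 1) :=
    CDat2.nd2_g C X pa w₀ z M g (by omega)
  rw [e1] at hP
  refine ⟨fun ω => A ω ∧ |X ω (l + 1) - eval (X ω) (Gn (ptr F J ω))| ≤
      1 / 2 ^ (g i j (l + 1) + A' * z) ∧ ∀ b : ℕ → ℝ, C.Nb2 X g i j (a₀ + i * z) (l + 1) ω b →
      |eval b (Gn (ptr F J ω)) - eval b (Hn (slam F w₀ ω, F.T1 (w₀ + j * z) ω))| ≤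
        1 / 2 ^ (g i j (l + 1) + A' * z), fun ω h => h.1, hP.trans ?_, ?_⟩
  · unfold Pb
    change ∑ ω : F.Ω, _ ≤ _
    refine Finset.sum_le_sum fun ω _ => ?_
    rcases (hq0 ω).eq_or_lt with h0 | h0
    · rw [← h0]
      simp
    · split_ifs with h1 h2
      · exact le_rfl
      · refine absurd ⟨hq ω h0, h1.1, fun b hb => ?_⟩ h2
        exact h1.2 b ((CDat2.nd2_NB C X pa w₀ z M g hi hj (by omega) ω b).2 hb)
      · exact h0.le
      · exact le_rfl
  · exact chn_of_new hC c hX hi hj hwJ hl hGn hHn (fun ω h => h.1) (fun ω h => h.2.1)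
      (fun ω h => h.2.2)

end

/-! ### No new label above the threshold -/

theorem Pe_sum {Ω : Type} [Fintype Ω] (p : Ω → ℝ) (A : Ω → Prop) : Pe p A = Pb p A := by
  classical
  unfold Pe law Pb
  refine Finset.sum_congr rfl fun ω _ => ?_
  by_cases h : A ω <;> simp [h]

theorem Pb_cond_sub {Ω : Type} [Fintype Ω] {p : Ω → ℝ} {A B : Ω → Prop} (hB : Sub B A)
    (hA : 0 < Pe p A) : Pb (Pool.Agent.H49.Ent.cond p A True) B * Pe p A = Pe p B := by
  classical
  have e1 : law p A True = Pe p A := by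
    rw [Pe_sum]
    unfold law Pb
    refine Finset.sum_congr rfl fun ω _ => ?_
    by_cases h : A ω <;> simp [h]
  rw [Pe_sum p B]
  unfold Pb
  rw [Finset.sum_mul]
  refine Finset.sum_congr rfl fun ω _ => ?_
  by_cases h : B ω
  · have h1 : A ω := hB ω h
    rw [if_pos h, if_pos h]
    unfold Pool.Agent.H49.Ent.cond
    rw [if_pos (eq_true h1), e1]
    exact div_mul_cancel₀ _ hA.ne'
  · rw [if_neg h, if_neg h, zero_mul]

/-- Statements about all members hold for all events of the members of probability at least `η'`. -/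
theorem Bas.ev {S : PCl m} {Φ : Stat m} (h : Bas S Φ) {η' : ℝ} (hη : 0 < η') :
    Bas S (fun J F A => ∀ B : F.Ω → Prop, Sub B A → η' * Pe F.p A ≤ Pe F.p B → Φ J F B) := by
  obtain ⟨τ, hτ, J₁, h⟩ := h
  obtain ⟨J₂, hJ₂⟩ := exists_nat_ge (-Real.log η' / (τ / 2))
  refine ⟨τ / 2, by positivity, max J₁ J₂, fun J hJ F A hA B hB hP => ?_⟩
  refine h J ((le_max_left _ _).trans hJ) F B ?_
  have h1 := S.res (τ := τ / 2) (τ' := τ / 2) (by positivity) hA hB (by
    refine le_trans (mul_le_mul_of_nonneg_right ?_ (Pe_nonneg F.isLaw A)) hP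
    have hJ' : (J₂ : ℝ) ≤ J := by exact_mod_cast (le_max_right _ _).trans hJ
    have h2 : -Real.log η' / (τ / 2) ≤ J := hJ₂.trans hJ'
    rw [div_le_iff₀ (by positivity)] at h2
    have h3 : -(τ / 2 * (J : ℝ)) ≤ Real.log η' := by linarith
    exact (Real.exp_le_exp.2 h3).trans (Real.exp_log hη).le)
  rwa [add_halves] at h1

/-- **No new label**, from the absence of chains: `Cd` is any condition on the radius, the window
and the precisions. -/
theorem lab_back_of {S : PCl m} (c : ℕ → Fin m) (l K : ℕ) (η' : ℝ) (hη : 0 < η')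
    (Cd : (J : ℕ) → ℕ → ℕ → (ℕ → ℕ) → Prop)
    (hno : Bas S (fun J F A => ∀ (a₀ w₀ e₀ : ℕ) (g : ℕ → ℕ), Cd J a₀ w₀ g →
      ¬ ChN F c (l + 1) (fun _ => K) a₀ w₀ e₀ g A))
    (hpos : ∀ (τ : ℝ) (J : ℕ) (F : Fam m J) (A : F.Ω → Prop), S.St τ J F A → 0 < Pe F.p A) :
    Bas S (fun J F A => ∀ (n : ℕ) (C : CDat2 F n) (X : F.Ω → ℕ → ℝ)
      (pa : Pool.STAT.Ln2 F → ℕ → Polynomial ℝ) (K₁ K₂ a₀ w₀ z M : ℕ) (g : ℕ → ℕ → ℕ → ℕ) (i j A' : ℕ),
      C.Cnd2 X pa K₁ a₀ w₀ z M g A → (∀ ω, A ω → ∀ k < n, X ω (k + 1) = F.x ω (c k)) →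
      K₁ ≤ K → K₂ ≤ K → i ≤ M → j ≤ M → l < n → w₀ + j * z ≤ J →
      Cd J (a₀ + i * z) (w₀ + j * z) (gv g i j l (g i j (l + 1) + A' * z)) →
      ¬ (C.nd2 X pa w₀ z M g).NewLab2 J a₀ w₀ z i j (l + 1) A' K₂ η'
        (Pool.Agent.H49.Ent.cond F.p A True)) := by
  obtain ⟨τ, hτ, J₁, hb⟩ := Bas.ev hno hη
  refine ⟨τ, hτ, J₁, fun J hJ F A hA => ?_⟩
  have hb := hb J hJ F A hA
  have hA0 := hpos τ J F A hA
  intro n C X pa K₁ K₂ a₀ w₀ z M g i j A' hC hX hK₁ hK₂ hi hj hl hwJ hcd hN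
  have hqA : ∀ ω, 0 < Pool.Agent.H49.Ent.cond F.p A True ω → A ω := by
    intro ω hω
    exact of_eq_true ((cond_pos_iff F.isLaw.nonneg A True ω).1 hω).2
  obtain ⟨B, hBA, hBP, e, hch⟩ := new_chn hC c hX hi hj hwJ hl
    (cond_nonneg F.isLaw.nonneg A True) hqA hN
  have hBP' : η' * Pe F.p A ≤ Pe F.p B := by
    rw [← Pb_cond_sub hBA hA0]
    exact mul_le_mul_of_nonneg_right hBP hA0.le
  exact hb B hBA hBP' (a₀ + i * z) (w₀ + j * z) e (gv g i j l (g i j (l + 1) + A' * z)) hcd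
    (Pool.GEN.ChN.cls hch fun k _ => max_le hK₁ hK₂)

/-- **No new label above the threshold.** -/
theorem lab_back {S : PCl m} {P : List (Fin m) × Fin m → ℝ → ℝ → ℝ}
    (hP : Pool.LBT.ThrOf (Pool.LBN.lsys m) S P) (c : ℕ → Fin m) (l K : ℕ) (a w : ℚ) (h η' : ℝ)
    (hw : 0 ≤ w) (hwa : w ≤ a) (ha : a ≤ 1) (hh : 0 < h)
    (h1 : Pool.CHT.bet P c l a w + h ≤ 1) (hη : 0 < η')
    (hpos : ∀ (τ : ℝ) (J : ℕ) (F : Fam m J) (A : F.Ω → Prop), S.St τ J F A → 0 < Pe F.p A) :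
    Bas S (fun J F A => ∀ (n : ℕ) (C : CDat2 F n) (X : F.Ω → ℕ → ℝ)
      (pa : Pool.STAT.Ln2 F → ℕ → Polynomial ℝ) (K₁ K₂ a₀ w₀ z M : ℕ) (g : ℕ → ℕ → ℕ → ℕ) (i j A' : ℕ),
      C.Cnd2 X pa K₁ a₀ w₀ z M g A → (∀ ω, A ω → ∀ k < n, X ω (k + 1) = F.x ω (c k)) →
      K₁ ≤ K → K₂ ≤ K → i ≤ M → j ≤ M → l < n → w₀ + j * z ≤ a₀ + i * z →
      a₀ + i * z ≤ ⌊(a : ℝ) * J⌋₊ → w₀ + j * z ≤ ⌊(w : ℝ) * J⌋₊ → (∀ k < l, g i j (k + 1) ≤ J) →
      g i j (l + 1) + A' * z ≤ J →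
      ⌊(Pool.CHT.bet P c l a w + h) * J⌋₊ + (a₀ + i * z) ≤
        g i j (l + 1) + A' * z + ⌊(a : ℝ) * J⌋₊ →
      ¬ (C.nd2 X pa w₀ z M g).NewLab2 J a₀ w₀ z i j (l + 1) A' K₂ η'
        (Pool.Agent.H49.Ent.cond F.p A True)) := by
  have hb := lab_back_of c l K η' hη (fun J a₀ w₀ g => w₀ ≤ a₀ ∧ a₀ ≤ ⌊(a : ℝ) * J⌋₊ ∧
    w₀ ≤ ⌊(w : ℝ) * J⌋₊ ∧ (∀ k ≤ l, g k ≤ J) ∧
      ⌊(Pool.CHT.bet P c l a w + h) * J⌋₊ + a₀ ≤ g l + ⌊(a : ℝ) * J⌋₊)
    (Bas.mono 0 (Pool.LBN.no_unif hP c l (fun _ => K) a w h hw hwa ha hh h1)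
      fun J _ F A hn a₀ w₀ e₀ g hcd => hn a₀ w₀ e₀ g hcd.1 hcd.2.1 hcd.2.2.1 hcd.2.2.2.1
        hcd.2.2.2.2) hpos
  refine Bas.mono 0 hb ?_
  intro J _ F A hb n C X pa K₁ K₂ a₀ w₀ z M g i j A' hC hX hK₁ hK₂ hi hj hl hwa' ha' hw' hg hgl
    hbig
  have hwJ : w₀ + j * z ≤ J := by
    refine (hwa'.trans ha').trans ?_
    refine Nat.floor_le_of_le ?_
    have : (a : ℝ) ≤ 1 := by exact_mod_cast ha
    calc (a : ℝ) * J ≤ 1 * J := mul_le_mul_of_nonneg_right this (Nat.cast_nonneg J)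
      _ = J := one_mul _
  refine hb n C X pa K₁ K₂ a₀ w₀ z M g i j A' hC hX hK₁ hK₂ hi hj hl hwJ
    ⟨hwa', ha', hw', fun k hk => ?_, ?_⟩
  · unfold gv
    split_ifs with hkl
    · exact hgl
    · exact hg k (lt_of_le_of_ne hk hkl)
  · unfold gv
    rw [if_pos rfl]
    exact hbig

end Pool.LBK
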