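import Pool.Agent.H35.LBK.Lbk
import Pool.Agent.H2.GEN.ChB

/-!
# No new label above the threshold, for the numbers over the boxes of `β`

The sides of the natural boxes of the cell are larger than `2 ^ (-β)` at the radius and the window
of the pair `(i, j)`, the target is uncapped.
-/

set_option autoImplicit false

namespace Pool.LBK

open Finset Real MvPolynomial
open Pool.Agent.H49.Ent Pool.Agent.H32.Dense Pool.STK Pool.KA Pool.KSAT Pool.K2S Pool.PB Pool.S6C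
open Pool.GEN (bt bd PtT LnT DepC NBx ChOK ChN Chn)
open Pool.STAT (PN NDat2 CDat2)
open Pool.BFL (Pb)

variable {m : ℕ}

/-- **No new label above the threshold** of the labels over the boxes of `β`. -/
theorem lab_back_B {S : PCl m} {P β : List (Fin m) × Fin m → ℝ → ℝ → ℝ}
    (hP : Pool.LBT.ThrOf (Pool.CHB.chsysB m none β) S P) (c : ℕ → Fin m) (l K : ℕ) (a w : ℚ)
    (h δ η' : ℝ) (hw : 0 ≤ w) (hwa : w ≤ a) (ha : a ≤ 1) (hh : 0 < h) (hδ : 0 < δ)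
    (h1 : Pool.CHT.bet P c l a w + h ≤ 1) (hη : 0 < η')
    (hpos : ∀ (τ : ℝ) (J : ℕ) (F : Fam m J) (A : F.Ω → Prop), S.St τ J F A → 0 < Pe F.p A) :
    Bas S (fun J F A => ∀ (n : ℕ) (C : CDat2 F n) (X : F.Ω → ℕ → ℝ)
      (pa : Pool.STAT.Ln2 F → ℕ → Polynomial ℝ) (K₁ K₂ a₀ w₀ z M : ℕ) (g : ℕ → ℕ → ℕ → ℕ)
      (i j A' : ℕ), C.Cnd2 X pa K₁ a₀ w₀ z M g A →
      (∀ ω, A ω → ∀ k < n, X ω (k + 1) = F.x ω (c k)) →
      K₁ ≤ K → K₂ ≤ K → i ≤ M → j ≤ M → l < n → w₀ + j * z ≤ a₀ + i * z →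
      a₀ + i * z ≤ ⌊(a : ℝ) * J⌋₊ → w₀ + j * z ≤ ⌊(w : ℝ) * J⌋₊ → (∀ k < l, g i j (k + 1) ≤ J) →
      (∀ k < l, (g i j (k + 1) : ℝ) ≤
        max 0 ((Pool.CHT.bet β c k (((a₀ + i * z : ℕ) : ℝ) / J) (((w₀ + j * z : ℕ) : ℝ) / J) - δ) *
          J)) →
      g i j (l + 1) + A' * z ≤ J →
      ⌊(Pool.CHT.bet P c l a w + h) * J⌋₊ + (a₀ + i * z) ≤
        g i j (l + 1) + A' * z + ⌊(a : ℝ) * J⌋₊ →
      ¬ (C.nd2 X pa w₀ z M g).NewLab2 J a₀ w₀ z i j (l + 1) A' K₂ η'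
        (Pool.Agent.H49.Ent.cond F.p A True)) := by
  have hb := lab_back_of c l K η' hη (fun J a₀ w₀ g => 1 ≤ J ∧ w₀ ≤ a₀ ∧ a₀ ≤ J ∧
      a₀ ≤ ⌊(a : ℝ) * J⌋₊ ∧ w₀ ≤ ⌊(w : ℝ) * J⌋₊ ∧ (∀ k ≤ l, g k ≤ J) ∧
      (∀ k < l, (g k : ℝ) ≤
        max 0 ((Pool.CHT.bet β c k ((a₀ : ℝ) / J) ((w₀ : ℝ) / J) - δ) * J)) ∧
      ⌊(Pool.CHT.bet P c l a w + h) * J⌋₊ + a₀ ≤ g l + ⌊(a : ℝ) * J⌋₊)
    (Bas.mono 0 (Pool.CHB.no_B hP c l (fun _ => K) a w 0 h δ hw hwa ha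
      (fun θ₀ hθ => by simp at hθ) hh hδ h1) ?_) hpos
  · refine Bas.mono 1 hb ?_
    intro J hJ F A hb n C X pa K₁ K₂ a₀ w₀ z M g i j A' hC hX hK₁ hK₂ hi hj hl hwa' ha' hw' hg hgb
      hgl hbig
    have haJ : a₀ + i * z ≤ J := by
      refine ha'.trans ?_
      refine Nat.floor_le_of_le ?_
      have : (a : ℝ) ≤ 1 := by exact_mod_cast ha
      calc (a : ℝ) * J ≤ 1 * J := mul_le_mul_of_nonneg_right this (Nat.cast_nonneg J)
        _ = J := one_mul _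
    refine hb n C X pa K₁ K₂ a₀ w₀ z M g i j A' hC hX hK₁ hK₂ hi hj hl (hwa'.trans haJ)
      ⟨hJ, hwa', haJ, ha', hw', fun k hk => ?_, fun k hk => ?_, ?_⟩
    · unfold gv
      split_ifs with hkl
      · exact hgl
      · exact hg k (lt_of_le_of_ne hk hkl)
    · unfold gv
      rw [if_neg hk.ne]
      exact hgb k hk
    · unfold gv
      rw [if_pos rfl]
      exact hbig
  · intro J _ F A hn a₀ w₀ e₀ g hcd
    obtain ⟨hJ, k1, k2, k3, k4, k5, k6, k7⟩ := hcd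
    have hJ0 : (0 : ℝ) < J := by exact_mod_cast hJ
    have e1 : ⌊(a₀ : ℝ) / J * J⌋₊ = a₀ := by
      rw [div_mul_cancel₀ _ hJ0.ne', Nat.floor_natCast]
    have e2 : ⌊(w₀ : ℝ) / J * J⌋₊ = w₀ := by
      rw [div_mul_cancel₀ _ hJ0.ne', Nat.floor_natCast]
    have h2 := hn ((a₀ : ℝ) / J) ((w₀ : ℝ) / J) e₀ g (by positivity)
      (div_le_div_of_nonneg_right (by exact_mod_cast k1) hJ0.le)
      ((div_le_one hJ0).2 (by exact_mod_cast k2)) (by rw [e1]; exact k3) (by rw [e2]; exact k4)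
      (fun θ₀ hθ => by simp at hθ) k5 k6 (by rw [e1]; exact k7)
    rw [e1, e2] at h2
    exact h2

end Pool.LBK
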